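import Mathlib
import Pool.Agent.TH796.Fin.Fin8

set_option autoImplicit false

/-!
# The digits of `π + e` and `π e` in two independent bases

Let `S` be an infinite set of integers. For a set `A` of bases let `K_A` be the field generated by
all real numbers with `O(n)` different blocks of `n` digits, `n ∈ S`, in some base of `A`.

(1) If `A` and `B` generate subgroups of the multiplicative group of `ℚ` with trivial intersection,
then, for `K = K_A` or for `K = K_B`, every set `U` of real numbers for which `e` is algebraic over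
`K(U)` contains a number transcendental over `K`. In particular `π + e` or `π e` is transcendental
over `K`. The same holds with `π` in place of `e`.

(2) If `b` and `c` are multiplicatively independent, then the largest one of the four numbers of
different blocks of `n` digits of `π + e` and of `π e` in the bases `b` and `c`, divided by `n`,
tends to infinity. The same holds for the numbers of blocks in base `b` of the members of a
finite set `U` and in base `c` of those of a finite set `V`, if `e` is algebraic over `ℚ(U)` and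
over `ℚ(V)` (or `π` is).

(3) For every `S` all the bases `b`, apart from the bases multiplicatively dependent on one base `c`,
have the property of (1), for the field generated by the real numbers with `O(n)` different blocks
of `n` digits, `n ∈ S`, in some base multiplicatively dependent on `b`.
-/

namespace Pool.Agent.Results.MP_a49cf6_nt.DigitsInTwoBases

open Filter

/-- the digit of index `n + 1` after the point in the base `b` expansion of `x` -/
noncomputable def digit (b : ℕ) (x : ℝ) (n : ℕ) : ℤ := ⌊x * (b : ℝ) ^ (n + 1)⌋ % (b : ℤ)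

/-- the number of different blocks of `n` consecutive digits (after the point) of `x` in base `b` -/
noncomputable def blocks (b : ℕ) (x : ℝ) (n : ℕ) : ℕ :=
  (Set.range fun i => fun j : Fin n => digit b x (i + j)).ncard

/-- the largest one of the numbers `blocks b u n`, `u ∈ U`, for a finite set `U` -/
noncomputable def maxBlocks (b : ℕ) (U : Finset ℝ) (n : ℕ) : ℕ := U.sup fun u => blocks b u n

/-- the field generated by all real numbers which in some base `b ∈ A` have at most `C n` different
blocks of `n` digits for all `n ∈ S`; `b` and `C` may depend on the number. It contains `ℚ`. -/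
noncomputable def lowField (S A : Set ℕ) : Subfield ℝ :=
  Subfield.closure {x | ∃ b ∈ A, ∃ C : ℝ, ∀ n ∈ S, (blocks b x n : ℝ) ≤ C * n}

/-- the subgroup of the multiplicative group of `ℚ` generated by `A` -/
def group (A : Set ℕ) : Subgroup ℚˣ := Subgroup.closure {u | ∃ b ∈ A, ((u : ℚˣ) : ℚ) = b}

/-- multiplicatively independent bases -/
def Independent (b c : ℕ) : Prop := ∀ k l : ℕ, b ^ k = c ^ l → k = 0 ∧ l = 0

/-- Every set `U` of real numbers for which `z` is algebraic over the field `K(U)` contains a number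
which is transcendental over `K`. -/
def SomeTranscendental (K : Subfield ℝ) (z : ℝ) : Prop :=
  ∀ U : Set ℝ, IsAlgebraic (Subfield.closure ((K : Set ℝ) ∪ U)) z → ∃ u ∈ U, Transcendental K u

theorem alg_mono {K F : Subfield ℝ} (h : K ≤ F) {z : ℝ} (hz : IsAlgebraic K z) :
    IsAlgebraic F z := Pool.Agent.TH796.AL.Alg.alg_mono h hz

theorem someTranscendental_of {K : Subfield ℝ} {z : ℝ} (h : Transcendental K z) :
    SomeTranscendental K z := by
  intro U hU
  by_contra hcon
  push Not at hcon
  apply h
  have hal : ∀ u ∈ U, IsAlgebraic K u := by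
    intro u hu
    have := hcon u hu
    unfold Transcendental at this
    exact not_not.1 this
  set E : IntermediateField K ℝ := algebraicClosure K ℝ with hE
  have hle : Subfield.closure ((K : Set ℝ) ∪ U) ≤ E.toSubfield := by
    rw [Subfield.closure_le]
    rintro x (hx | hx)
    · exact E.algebraMap_mem ⟨x, hx⟩
    · exact (mem_algebraicClosure_iff).2 (hal x hx)
  have h1 : IsAlgebraic E.toSubfield z := alg_mono hle hU
  have h2 : IsAlgebraic E z := h1
  have : Algebra.IsAlgebraic K E := algebraicClosure.isAlgebraic K ℝ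
  exact h2.restrictScalars K

/-- `z` is a root of a monic quadratic polynomial with coefficients in the field generated by `U` -/
theorem alg_quad {F : Subfield ℝ} {s p z : ℝ} (hs : s ∈ F) (hp : p ∈ F)
    (h : z ^ 2 - s * z + p = 0) : IsAlgebraic F z := by
  refine ⟨Polynomial.X ^ 2 - Polynomial.C (⟨s, hs⟩ : F) * Polynomial.X +
    Polynomial.C (⟨p, hp⟩ : F), ?_, ?_⟩
  · intro h0
    have h1 := congrArg (fun q : Polynomial F => q.coeff 2) h0
    simp at h1
  · simp only [map_add, map_sub, map_pow, map_mul, Polynomial.aeval_X, Polynomial.aeval_C]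
    exact h

/-- the set `{π + e, π e}` -/
noncomputable def sumProduct : Finset ℝ := {Real.pi + Real.exp 1, Real.pi * Real.exp 1}

theorem alg_sumProduct {F : Subfield ℝ} (h : (sumProduct : Set ℝ) ⊆ F) {z : ℝ}
    (hz : z = Real.exp 1 ∨ z = Real.pi) : IsAlgebraic F z := by
  have h1 : Real.pi + Real.exp 1 ∈ F := h (by simp [sumProduct])
  have h2 : Real.pi * Real.exp 1 ∈ F := h (by simp [sumProduct])
  refine alg_quad h1 h2 ?_
  rcases hz with rfl | rfl <;> ring

theorem mem_lowField {S A : Set ℕ} {b : ℕ} (hb : b ∈ A) {x : ℝ} {C : ℝ}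
    (h : ∀ n ∈ S, (blocks b x n : ℝ) ≤ C * n) : x ∈ lowField S A :=
  Subfield.subset_closure ⟨b, hb, C, h⟩

theorem not_transc {K : Subfield ℝ} {x : ℝ} (h : x ∈ K) : ¬ Transcendental K x := by
  intro h1
  exact h1 (isAlgebraic_algebraMap (⟨x, h⟩ : K))

/-- **The digits of `π + e` and `π e`.** See the text at the beginning of the file. -/
theorem result :
    (∀ S : Set ℕ, S.Infinite → ∀ A B : Set ℕ, (∀ b ∈ A, 2 ≤ b) → (∀ b ∈ B, 2 ≤ b) →
      group A ⊓ group B = ⊥ →
      (∀ z : ℝ, z = Real.exp 1 ∨ z = Real.pi →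
        SomeTranscendental (lowField S A) z ∨ SomeTranscendental (lowField S B) z) ∧
      ∃ K : Subfield ℝ, (K = lowField S A ∨ K = lowField S B) ∧
        (Transcendental K (Real.pi + Real.exp 1) ∨ Transcendental K (Real.pi * Real.exp 1))) ∧
    (∀ b c : ℕ, 2 ≤ b → 2 ≤ c → Independent b c →
      Tendsto (fun n : ℕ => ((max
        (max (blocks b (Real.pi + Real.exp 1) n) (blocks b (Real.pi * Real.exp 1) n))
        (max (blocks c (Real.pi + Real.exp 1) n) (blocks c (Real.pi * Real.exp 1) n)) : ℕ) : ℝ) / n)
        atTop atTop ∧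
      ∀ z : ℝ, z = Real.exp 1 ∨ z = Real.pi → ∀ U V : Finset ℝ,
        IsAlgebraic (Subfield.closure (U : Set ℝ)) z → IsAlgebraic (Subfield.closure (V : Set ℝ)) z →
        Tendsto (fun n : ℕ => ((max (maxBlocks b U n) (maxBlocks c V n) : ℕ) : ℝ) / n)
          atTop atTop) ∧
    (∀ S : Set ℕ, S.Infinite → ∀ z : ℝ, z = Real.exp 1 ∨ z = Real.pi →
      ∃ c : ℕ, 2 ≤ c ∧ ∀ b : ℕ, 2 ≤ b → Independent b c →
        SomeTranscendental (lowField S {d | 2 ≤ d ∧ ¬ Independent d b}) z ∧
        (Transcendental (lowField S {d | 2 ≤ d ∧ ¬ Independent d b}) (Real.pi + Real.exp 1) ∨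
          Transcendental (lowField S {d | 2 ≤ d ∧ ¬ Independent d b}) (Real.pi * Real.exp 1))) := by
  have hz : ∀ z : ℝ, z = Real.exp 1 ∨ z = Real.pi → Transcendental ℚ z ∧
      ¬ Pool.Agent.TH796.AL.Ai.UNumber z := by
    intro z hz
    have hm : Pool.Agent.TH456.TM.MeasT (z : ℂ) := by
      rcases hz with rfl | rfl
      · exact Pool.Agent.TH796.AL.Ai.measT_of (Or.inl rfl)
      · exact Pool.Agent.TH796.AL.Ai.measT_of (Or.inr (Or.inl rfl))
    exact ⟨Pool.Agent.TH796.AL.Alg.transc_of_measT hm, Pool.Agent.TH796.AL.Ai.not_unumber hm⟩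
  have h1 : ∀ S : Set ℕ, S.Infinite → ∀ A B : Set ℕ, (∀ b ∈ A, 2 ≤ b) → (∀ b ∈ B, 2 ≤ b) →
      group A ⊓ group B = ⊥ → ∀ z : ℝ, z = Real.exp 1 ∨ z = Real.pi →
      SomeTranscendental (lowField S A) z ∨ SomeTranscendental (lowField S B) z := by
    intro S hS A B hA hB hAB z hz'
    obtain ⟨ht, hU⟩ := hz z hz'
    rcases Pool.Agent.TH796.AL.Alg.free_pair ht hU hA hB hAB hS with h | h
    · exact Or.inl (someTranscendental_of h.1)
    · exact Or.inr (someTranscendental_of h.1)
  have hsp : ∀ (K : Subfield ℝ) (z : ℝ), z = Real.exp 1 ∨ z = Real.pi → SomeTranscendental K z →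
      Transcendental K (Real.pi + Real.exp 1) ∨ Transcendental K (Real.pi * Real.exp 1) := by
    intro K z hz' h
    obtain ⟨u, hu, hut⟩ := h (sumProduct : Set ℝ) (alg_sumProduct
      (fun x hx => Subfield.subset_closure (Or.inr hx)) hz')
    simp only [sumProduct, Finset.coe_insert, Finset.coe_singleton, Set.mem_insert_iff,
      Set.mem_singleton_iff] at hu
    rcases hu with rfl | rfl
    · exact Or.inl hut
    · exact Or.inr hut
  have h2 : ∀ b c : ℕ, 2 ≤ b → 2 ≤ c → Independent b c →
      ∀ z : ℝ, z = Real.exp 1 ∨ z = Real.pi → ∀ U V : Finset ℝ,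
        IsAlgebraic (Subfield.closure (U : Set ℝ)) z → IsAlgebraic (Subfield.closure (V : Set ℝ)) z →
        Tendsto (fun n : ℕ => ((max (maxBlocks b U n) (maxBlocks c V n) : ℕ) : ℝ) / n)
          atTop atTop := by
    intro b c hb hc hbc z hz' U V hU hV
    by_contra hcon
    rw [tendsto_atTop] at hcon
    push Not at hcon
    obtain ⟨C, hC⟩ := hcon
    set S : Set ℕ := {n : ℕ | 1 ≤ n ∧
      ((max (maxBlocks b U n) (maxBlocks c V n) : ℕ) : ℝ) / n < C} with hSdef
    have hS : S.Infinite := by
      rw [← Nat.frequently_atTop_iff_infinite]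
      exact (hC.and_eventually (eventually_ge_atTop 1)).mono fun n hn => ⟨hn.2, hn.1⟩
    have hle : ∀ n ∈ S, ((max (maxBlocks b U n) (maxBlocks c V n) : ℕ) : ℝ) ≤ C * n := by
      rintro n ⟨hn1, hn2⟩
      have hn0 : (0:ℝ) < n := by exact_mod_cast hn1
      exact ((div_lt_iff₀ hn0).1 hn2).le
    have ha : ∀ u ∈ U, ∀ n ∈ S, (blocks b u n : ℝ) ≤ C * n := by
      intro u hu n hn
      have h3 : blocks b u n ≤ max (maxBlocks b U n) (maxBlocks c V n) :=
        (Finset.le_sup (f := fun u => blocks b u n) hu).trans (le_max_left _ _)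
      exact le_trans (Nat.cast_le.2 h3) (hle n hn)
    have hb' : ∀ u ∈ V, ∀ n ∈ S, (blocks c u n : ℝ) ≤ C * n := by
      intro u hu n hn
      have h3 : blocks c u n ≤ max (maxBlocks b U n) (maxBlocks c V n) :=
        (Finset.le_sup (f := fun u => blocks c u n) hu).trans (le_max_right _ _)
      exact le_trans (Nat.cast_le.2 h3) (hle n hn)
    rcases h1 S hS {b} {c} (by simpa using hb) (by simpa using hc)
      (Pool.Agent.TH796.AL.Ai.group_inf hb hc hbc) z hz' with h | h
    · obtain ⟨u, hu, hut⟩ := h (U : Set ℝ) (alg_mono (Subfield.closure_mono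
        Set.subset_union_right) hU)
      exact not_transc (mem_lowField (Set.mem_singleton b) (ha u (by exact_mod_cast hu))) hut
    · obtain ⟨u, hu, hut⟩ := h (V : Set ℝ) (alg_mono (Subfield.closure_mono
        Set.subset_union_right) hV)
      exact not_transc (mem_lowField (Set.mem_singleton c) (hb' u (by exact_mod_cast hu))) hut
  refine ⟨fun S hS A B hA hB hAB => ⟨h1 S hS A B hA hB hAB, ?_⟩,
    fun b c hb hc hbc => ⟨?_, h2 b c hb hc hbc⟩, fun S hS z hz' => ?_⟩
  · rcases h1 S hS A B hA hB hAB (Real.exp 1) (Or.inl rfl) with h | h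
    · exact ⟨_, Or.inl rfl, hsp _ _ (Or.inl rfl) h⟩
    · exact ⟨_, Or.inr rfl, hsp _ _ (Or.inl rfl) h⟩
  · have h := h2 b c hb hc hbc (Real.exp 1) (Or.inl rfl) sumProduct sumProduct
      (alg_sumProduct Subfield.subset_closure (Or.inl rfl))
      (alg_sumProduct Subfield.subset_closure (Or.inl rfl))
    refine h.congr fun n => ?_
    have e : ∀ d : ℕ, maxBlocks d sumProduct n =
        max (blocks d (Real.pi + Real.exp 1) n) (blocks d (Real.pi * Real.exp 1) n) := by
      intro d
      simp [maxBlocks, sumProduct]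
    rw [e, e]
  · obtain ⟨ht, hU⟩ := hz z hz'
    obtain ⟨c, hc, h⟩ := Pool.Agent.TH796.Fin.free_cls ht hU hS
    refine ⟨c, hc, fun b hb hbc => ?_⟩
    have h3 : SomeTranscendental (lowField S {d | 2 ≤ d ∧ ¬ Independent d b}) z :=
      someTranscendental_of (h b hb hbc).1
    exact ⟨h3, hsp _ _ hz' h3⟩

end Pool.Agent.Results.MP_a49cf6_nt.DigitsInTwoBases
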