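import Mathlib
import Pool.Agent.K3h2.LZ.Main
import Pool.Agent.Results.MP_a49cf6_nt.DigitRecurrences

set_option autoImplicit false

/-!
# The expansions of `π + e` and `π e` are not compressible

A word of letters is cut into `z` phrases (`LZ a L z`, Lempel and Ziv) if each phrase is a single
letter, or a (possibly empty) copy of a block that begins further to the left; the block may
overlap the phrase. A number is rational if and only if its digits in a base are cut into a bounded
number of phrases, at all scales. The first `L` digits of a number with digits generated by a finite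
automaton, or by a substitution of constant length, are cut into `O(log L)` phrases.

One of `π + e`, `π e` is irrational since `e` is a root of `X ^ 2 - (π + e) X + π e`. We
show that the expansions of these two numbers are not compressible to few phrases together, for the
digits and for all representations by integers of absolute value at most `b ^ h`, also if some
letters are changed (`Cut`, `JointCut`):

* in one base with a common parsing: `L ≤ C (3 + η) ^ z`, and `L ≤ C (6 + η) ^ (z + k)` if `k` places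
  are changed;
* in two bases `b`, `c`, with separate parsings of the prefixes of lengths `L`, `M` into `z`, `w`
  phrases: `min (L log b) (M log c) ≤ C (log b + log c) (6 + η) ^ (z + w)`, and if `k` and `l`
  letters are changed, `≤ C (log b + log c) (12 + η) ^ (z + w + k + l)`;
* for all large `L`, uniformly in the base, the first `L` digits of one of the two numbers are not
  cut into fewer than `(log L) / 3.6` phrases.

The same holds, uniformly, for `t + e`, `t e` with real `t` in a bounded interval, and for the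
coefficients of all polynomials of degree `n` with real coefficients in a bounded interval and the
root `e`.

The proof: between two scales `t` and `K t + A` without ends of phrases the expansions are
periodic, and this gives rational approximations `P j / q j` with `∏ q j ≤ exp (n t)` and errors at
most `exp (- K t - A)`, against the measure in `DigitRecurrences`. The phrases and the method are
those of `Pool/Agent/Results/MP_4f096c_nt/LempelZivExpansions.lean`, here uniform in the numbers,
with errors, and with a better constant.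
-/

namespace Pool.Agent.Results.MP_a49cf6_nt.LempelZivExpansions

open Finset Pool.Agent.R343.LP Pool.Agent.R343.LD Pool.Agent.K3h2.LZ
open Pool.Agent.W47.JL (Meas)

/-- `a` is an expansion of `x` modulo `1` in base `b` with integers of absolute value at most
`b ^ h` as digits -/
def Expansion (h b : ℕ) (a : ℕ → ℤ) (x : ℝ) : Prop :=
  (∀ i, |a i| ≤ ((b ^ h : ℕ) : ℤ)) ∧
    ∃ n : ℤ, HasSum (fun i : ℕ => (a i : ℝ) / (b : ℝ) ^ (i + 1)) (x - n)

/-- the first `L` letters of `a` are cut into `z` phrases after at most `k` of them have been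
replaced by other integers of absolute value at most `H` -/
def Cut (H : ℕ) (a : ℕ → ℤ) (L z k : ℕ) : Prop :=
  ∃ s : ℕ → ℤ, (∀ i, |s i| ≤ (H : ℤ)) ∧ ((range L).filter fun i => s i ≠ a i).card ≤ k ∧ LZ s L z

/-- the first `L` letters of all the words `a j` are cut into `z` phrases in the same way, after
changes in at most `k` places -/
def JointCut {J : ℕ} (H : ℕ) (a : Fin J → ℕ → ℤ) (L z k : ℕ) : Prop :=
  ∃ s : Fin J → ℕ → ℤ, (∀ j i, |s j i| ≤ (H : ℤ)) ∧
    ((range L).filter fun i => ∃ j, s j i ≠ a j i).card ≤ k ∧ LZ (fun i => fun j => s j i) L z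

/-- the digits of `x` after the point in base `b` -/
noncomputable def digit (b : ℕ) (x : ℝ) (i : ℕ) : ℤ := ⌊x * (b : ℝ) ^ (i + 1)⌋ % (b : ℤ)

theorem digit_expansion {b : ℕ} (hb : 2 ≤ b) (x : ℝ) : Expansion 1 b (digit b x) x := by
  have hb1 : (1 : ℝ) < b := by exact_mod_cast (by omega : 1 < b)
  have hb0 : (0 : ℝ) < b := by linarith
  have hbZ : (0 : ℤ) < b := by exact_mod_cast (by omega : 0 < b)
  have hd0 : ∀ i, 0 ≤ digit b x i := fun i => Int.emod_nonneg _ hbZ.ne'
  have hd1 : ∀ i, digit b x i < b := fun i => Int.emod_lt_of_pos _ hbZ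
  refine ⟨fun i => ?_, ⌊x⌋, ?_⟩
  · rw [abs_of_nonneg (hd0 i), pow_one]
    exact (hd1 i).le
  rw [hasSum_iff_tendsto_nat_of_nonneg]
  · have h1 : ∀ N : ℕ, ∑ n ∈ range N, (digit b x n : ℝ) / (b : ℝ) ^ (n + 1) =
        (⌊x * (b : ℝ) ^ N⌋ : ℝ) / (b : ℝ) ^ N - ⌊x⌋ := by
      intro N
      induction N with
      | zero => simp
      | succ N ih =>
        rw [Finset.sum_range_succ, ih]
        have h2 : (⌊x * (b : ℝ) ^ (N + 1)⌋ : ℝ) = b * ⌊x * (b : ℝ) ^ N⌋ + (digit b x N : ℝ) := by
          have h4 : ⌊x * (b : ℝ) ^ (N + 1)⌋ / (b : ℤ) = ⌊x * (b : ℝ) ^ N⌋ := by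
            rw [← Int.floor_div_natCast, pow_succ]
            congr 1
            field_simp
          have h5 := Int.mul_ediv_add_emod ⌊x * (b : ℝ) ^ (N + 1)⌋ (b : ℤ)
          rw [h4] at h5
          rw [digit]
          exact_mod_cast h5.symm
        rw [h2]
        field_simp
        ring
    have h2 : Filter.Tendsto (fun N : ℕ => (⌊x * (b : ℝ) ^ N⌋ : ℝ) / (b : ℝ) ^ N) Filter.atTop
        (nhds x) := by
      have h3 : Filter.Tendsto (fun N : ℕ => x - ((b : ℝ) ^ N)⁻¹) Filter.atTop (nhds (x - 0)) :=
        tendsto_const_nhds.sub (tendsto_inv_atTop_zero.comp (tendsto_pow_atTop_atTop_of_one_lt hb1))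
      rw [sub_zero] at h3
      refine tendsto_of_tendsto_of_tendsto_of_le_of_le h3 tendsto_const_nhds (fun N => ?_)
        fun N => ?_
      · have hp : (0 : ℝ) < (b : ℝ) ^ N := by positivity
        change x - ((b : ℝ) ^ N)⁻¹ ≤ (⌊x * (b : ℝ) ^ N⌋ : ℝ) / (b : ℝ) ^ N
        rw [le_div_iff₀ hp, sub_mul, inv_mul_cancel₀ hp.ne']
        exact (Int.sub_one_lt_floor _).le
      · have hp : (0 : ℝ) < (b : ℝ) ^ N := by positivity
        change (⌊x * (b : ℝ) ^ N⌋ : ℝ) / (b : ℝ) ^ N ≤ x
        rw [div_le_iff₀ hp]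
        exact Int.floor_le _
    exact (h2.sub_const _).congr fun N => (h1 N).symm
  · intro i
    have : (0 : ℝ) ≤ digit b x i := by exact_mod_cast hd0 i
    positivity

/-- the results for several numbers with a common measure, uniformly in the numbers -/
theorem general (J : ℕ) (hJ : 1 ≤ J) (μ c : ℝ) (hμ : 2 ≤ μ) (hc : 0 < c) (h : ℕ) :
    ∃ C : ℝ, 0 < C ∧ ∀ x : Fin J → ℝ, Meas J x μ c 0 →
      (∀ b : ℕ, 2 ≤ b → ∀ a : Fin J → ℕ → ℤ, (∀ j, Expansion h b (a j) (x j)) →
        ∀ L z k : ℕ, JointCut (b ^ h) a L z k →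
          (L : ℝ) ≤ C * (2 * μ) ^ (z + k) ∧ (k = 0 → (L : ℝ) ≤ C * μ ^ z)) ∧
      (∀ b : Fin J → ℕ, (∀ j, 2 ≤ b j) → ∀ a : Fin J → ℕ → ℤ,
        (∀ j, Expansion h (b j) (a j) (x j)) → ∀ L z k : Fin J → ℕ,
        (∀ j, Cut (b j ^ h) (a j) (L j) (z j) (k j)) → ∀ Λ : ℝ,
        (∀ j, Λ ≤ L j * Real.log (b j)) →
          Λ ≤ C * (∑ j, Real.log (b j)) * (2 * J * μ) ^ (∑ j, (z j + k j)) ∧
          ((∀ j, k j = 0) → Λ ≤ C * (∑ j, Real.log (b j)) * (J * μ) ^ (∑ j, z j))) := by
  classical
  have hJ' : (1 : ℝ) ≤ J := by exact_mod_cast hJ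
  obtain ⟨C1, hC1, h1⟩ := jointE J μ c (by linarith) hc 1 (Or.inl rfl) (by push_cast; linarith) h
  obtain ⟨C2, hC2, h2⟩ := jointE J μ c (by linarith) hc 2 (Or.inr rfl) (by push_cast; linarith) h
  obtain ⟨C3, hC3, h3⟩ := sepE J μ c (by linarith) hc 1 (Or.inl rfl) (by push_cast; nlinarith) h
  obtain ⟨C4, hC4, h4⟩ := sepE J μ c (by linarith) hc 2 (Or.inr rfl) (by push_cast; nlinarith) h
  obtain ⟨C, hC⟩ : ∃ C : ℝ, C = C1 + C2 + C3 + C4 := ⟨_, rfl⟩
  refine ⟨C, by rw [hC]; positivity, fun x hM => ⟨?_, ?_⟩⟩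
  · intro b hb a ha L z k ⟨s, hs, hcard, hLZ⟩
    refine ⟨?_, fun hk => ?_⟩
    · have h5 := h2 x hM b hb a s (fun j => (ha j).1) hs (fun j => (ha j).2) L z
        ((range L).filter fun i => ∃ j, s j i ≠ a j i) (fun j i hi hn => by
          by_contra hne
          exact hn (Finset.mem_filter.2 ⟨Finset.mem_range.2 hi, j, hne⟩)) (fun h => by omega) hLZ
      refine h5.trans ?_
      push_cast
      have h6 : (2 * μ) ^ (z + ((range L).filter fun i => ∃ j, s j i ≠ a j i).card) ≤
          (2 * μ) ^ (z + k) := pow_le_pow_right₀ (by linarith) (by omega)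
      exact mul_le_mul (by rw [hC]; linarith) h6 (by positivity) (by rw [hC]; positivity)
    · have h7 : ((range L).filter fun i => ∃ j, s j i ≠ a j i) = ∅ := by
        rw [← Finset.card_eq_zero]
        omega
      have h5 := h1 x hM b hb a s (fun j => (ha j).1) hs (fun j => (ha j).2) L z
        ∅ (fun j i hi _ => by
          by_contra hne
          have h8 : i ∈ ((range L).filter fun i => ∃ j, s j i ≠ a j i) :=
            Finset.mem_filter.2 ⟨Finset.mem_range.2 hi, j, hne⟩
          rw [h7] at h8
          exact absurd h8 (Finset.notMem_empty _)) (fun _ => rfl) hLZ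
      rw [Finset.card_empty, add_zero, Nat.cast_one, one_mul] at h5
      refine h5.trans ?_
      exact mul_le_mul_of_nonneg_right (by rw [hC]; linarith) (by positivity)
  · intro b hb a ha L z k hcut Λ hΛ
    choose s hs hcard hLZ using hcut
    have hB : 0 ≤ ∑ j, Real.log (b j) := Finset.sum_nonneg fun j _ => Real.log_natCast_nonneg _
    refine ⟨?_, fun hk => ?_⟩
    · have h5 := h4 x hM b hb a s (fun j => (ha j).1) hs (fun j => (ha j).2) L z
        (fun j => (range (L j)).filter fun i => s j i ≠ a j i) (fun j i hi hn => by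
          by_contra hne
          exact hn (Finset.mem_filter.2 ⟨Finset.mem_range.2 hi, hne⟩)) (fun h => by omega) hLZ Λ hΛ
      refine h5.trans ?_
      push_cast
      have h6 : (2 * (J : ℝ) * μ) ^ (∑ j, (z j + ((range (L j)).filter
          fun i => s j i ≠ a j i).card)) ≤ (2 * (J : ℝ) * μ) ^ (∑ j, (z j + k j)) := by
        refine pow_le_pow_right₀ (by nlinarith) (Finset.sum_le_sum fun j _ => ?_)
        have := hcard j
        omega
      refine mul_le_mul (mul_le_mul_of_nonneg_right (by rw [hC]; linarith) hB) h6 (by positivity)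
        (by rw [hC]; positivity)
    · have h7 : ∀ j, ((range (L j)).filter fun i => s j i ≠ a j i) = ∅ := by
        intro j
        rw [← Finset.card_eq_zero]
        have := hcard j
        have := hk j
        omega
      have h5 := h3 x hM b hb a s (fun j => (ha j).1) hs (fun j => (ha j).2) L z
        (fun _ => ∅) (fun j i hi _ => by
          by_contra hne
          have h8 : i ∈ ((range (L j)).filter fun i => s j i ≠ a j i) :=
            Finset.mem_filter.2 ⟨Finset.mem_range.2 hi, hne⟩
          rw [h7 j] at h8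
          exact absurd h8 (Finset.notMem_empty _)) (fun _ _ => rfl) hLZ Λ hΛ
      simp only [Finset.card_empty, add_zero, Nat.cast_one, one_mul] at h5
      refine h5.trans ?_
      refine mul_le_mul_of_nonneg_right (mul_le_mul_of_nonneg_right (by rw [hC]; linarith) hB) ?_
      positivity

theorem log_604 : Real.log 6.04 < 1.8 := by
  have h1 := Real.exp_one_gt_d9
  have h2 : (6.04 : ℝ) ^ 5 < Real.exp 1 ^ 9 := by
    calc (6.04 : ℝ) ^ 5 < 2.7182818283 ^ 9 := by norm_num
      _ ≤ _ := pow_le_pow_left₀ (by norm_num) h1.le _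
  have h3 := Real.log_lt_log (by positivity) h2
  rw [Real.log_pow, Real.log_pow, Real.log_exp] at h3
  push_cast at h3
  linarith

theorem log_1208 : Real.log 12.08 < 2.5 := by
  have h1 := Real.exp_one_gt_d9
  have h2 : (12.08 : ℝ) ^ 2 < Real.exp 1 ^ 5 := by
    calc (12.08 : ℝ) ^ 2 < 2.7182818283 ^ 5 := by norm_num
      _ ≤ _ := pow_le_pow_left₀ (by norm_num) h1.le _
  have h3 := Real.log_lt_log (by positivity) h2
  rw [Real.log_pow, Real.log_pow, Real.log_exp] at h3
  push_cast at h3
  linarith

/-- **Main theorem.** (`Expansion h b a x`: `a` is an expansion of `x` modulo `1` in base `b` with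
integers of absolute value at most `b ^ h`; `Cut`, `JointCut`: parsing into `z` phrases after
changes in at most `k` places.)

(1) Let `c_0 ≠ 0, c_1, …, c_n` be integers, `n ≥ 1`, and `T`, `η > 0` real. There is `C` such that
for all real numbers `y_1, …, y_n` of absolute value at most `T` with
`c_0 e ^ n = c_1 y_1 + c_2 y_2 e + … + c_n y_n e ^ (n - 1)`: if expansions of `y_1, …, y_n` in one base
have a common parsing of the first `L` letters into `z` phrases after changes in `k` places then
`L ≤ C (2 (n + 1 + η)) ^ (z + k)`, and `L ≤ C (n + 1 + η) ^ z` for `k = 0`. If the first `L_j`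
letters of expansions of the `y_j` in bases `b_j` are cut into `z_j` phrases after changes of `k_j`
letters, and `Λ ≤ L_j log b_j` for all `j`, then
`Λ ≤ C (log b_1 + … + log b_n) (2 n (n + 1 + η)) ^ (z_1 + k_1 + … + z_n + k_n)`, and
`Λ ≤ C (log b_1 + … + log b_n) (n (n + 1 + η)) ^ (z_1 + … + z_n)` if all `k_j` are `0`.

(2) In particular for all `T` and `η > 0` there is `C` such that for all real `t` with `|t| ≤ T`, all
bases `b`, `c ≥ 2` and expansions `u`, `v` of `t + e` in base `b` and of `t e` in base `c`, with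
parsings of their prefixes of lengths `L`, `M` into `z` and `w` phrases:
`min (L log b) (M log c) ≤ C (log b + log c) (6 + η) ^ (z + w)`, and after changes of `k` and `l`
letters `min (L log b) (M log c) ≤ C (log b + log c) (12 + η) ^ (z + k + w + l)`.

(3) There is `L_0` such that in all bases `b` and for all `L ≥ L_0`: the first `L` digits of
`π + e` or those of `π e` are not cut into fewer than `(log L) / 3.6` phrases; and for one of the
two numbers `z + k ≥ (log L) / 5` for all parsings into `z` phrases after changes of `k` digits. -/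
theorem result :
    (∀ (n : ℕ), 1 ≤ n → ∀ c : Fin (n + 1) → ℤ, c 0 ≠ 0 → ∀ T η : ℝ, 0 < η → ∀ h : ℕ,
      ∃ C : ℝ, 0 < C ∧ ∀ y : Fin n → ℝ, (∀ j, |y j| ≤ T) →
      (c 0 : ℝ) * Real.exp 1 ^ n = ∑ j : Fin n, (c j.succ : ℝ) * y j * Real.exp 1 ^ (j : ℕ) →
      (∀ b : ℕ, 2 ≤ b → ∀ a : Fin n → ℕ → ℤ, (∀ j, Expansion h b (a j) (y j)) →
        ∀ L z k : ℕ, JointCut (b ^ h) a L z k →
          (L : ℝ) ≤ C * (2 * ((n : ℝ) + 1 + η)) ^ (z + k) ∧
          (k = 0 → (L : ℝ) ≤ C * ((n : ℝ) + 1 + η) ^ z)) ∧
      (∀ b : Fin n → ℕ, (∀ j, 2 ≤ b j) → ∀ a : Fin n → ℕ → ℤ,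
        (∀ j, Expansion h (b j) (a j) (y j)) → ∀ L z k : Fin n → ℕ,
        (∀ j, Cut (b j ^ h) (a j) (L j) (z j) (k j)) → ∀ Λ : ℝ,
        (∀ j, Λ ≤ L j * Real.log (b j)) →
          Λ ≤ C * (∑ j, Real.log (b j)) * (2 * n * ((n : ℝ) + 1 + η)) ^ (∑ j, (z j + k j)) ∧
          ((∀ j, k j = 0) →
            Λ ≤ C * (∑ j, Real.log (b j)) * (n * ((n : ℝ) + 1 + η)) ^ (∑ j, z j)))) ∧
    (∀ T η : ℝ, 0 < η → ∀ h : ℕ, ∃ C : ℝ, 0 < C ∧ ∀ t : ℝ, |t| ≤ T → ∀ b c : ℕ, 2 ≤ b → 2 ≤ c →
      ∀ u v : ℕ → ℤ, Expansion h b u (t + Real.exp 1) → Expansion h c v (t * Real.exp 1) →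
      ∀ L M z w : ℕ,
        (LZ u L z → LZ v M w → min (L * Real.log b) (M * Real.log c) ≤
          C * (Real.log b + Real.log c) * (6 + η) ^ (z + w)) ∧
        (∀ k l : ℕ, Cut (b ^ h) u L z k → Cut (c ^ h) v M w l →
          min (L * Real.log b) (M * Real.log c) ≤
            C * (Real.log b + Real.log c) * (12 + η) ^ (z + k + w + l))) ∧
    (∃ L₀ : ℕ, ∀ b : ℕ, 2 ≤ b → ∀ L : ℕ, L₀ ≤ L →
      ((∀ z : ℕ, LZ (digit b (Real.pi + Real.exp 1)) L z → Real.log L / 3.6 ≤ z) ∨
        (∀ z : ℕ, LZ (digit b (Real.pi * Real.exp 1)) L z → Real.log L / 3.6 ≤ z)) ∧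
      ((∀ z k : ℕ, Cut b (digit b (Real.pi + Real.exp 1)) L z k → Real.log L / 5 ≤ z + k) ∨
        (∀ z k : ℕ, Cut b (digit b (Real.pi * Real.exp 1)) L z k → Real.log L / 5 ≤ z + k))) := by
  classical
  refine ⟨?_, ?_, ?_⟩
  · intro n hn c hc T η hη h
    have hn' : (1 : ℝ) ≤ n := by exact_mod_cast hn
    obtain ⟨c0, hc0, hm⟩ := DigitRecurrences.meas n c hc T η hη
    obtain ⟨C, hC0, hC⟩ := general n hn ((n : ℝ) + 1 + η) c0 (by linarith) hc0 h
    exact ⟨C, hC0, fun y hy hrel => hC y (hm y hy hrel)⟩
  · intro T η hη h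
    obtain ⟨c0, hc0, hm⟩ := DigitRecurrences.pair_meas T (η / 4) (by linarith)
    obtain ⟨C, hC0, hC⟩ := general 2 (by norm_num) (3 + η / 4) c0 (by linarith) hc0 h
    refine ⟨C, hC0, ?_⟩
    intro t ht b c hb hc u v hu hv L M z w
    obtain ⟨-, h2⟩ := hC _ (hm t ht)
    have key : ∀ k l : ℕ, Cut (b ^ h) u L z k → Cut (c ^ h) v M w l →
        (min (L * Real.log b) (M * Real.log c) ≤
            C * (Real.log b + Real.log c) * (12 + η) ^ (z + k + w + l)) ∧
        (k = 0 → l = 0 → min (L * Real.log b) (M * Real.log c) ≤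
            C * (Real.log b + Real.log c) * (6 + η) ^ (z + w)) := by
      intro k l hk hl
      obtain ⟨h3, h4⟩ := h2 ![c, b] (by
          intro j
          fin_cases j
          · exact hc
          · exact hb) ![v, u] (by
          intro j
          fin_cases j
          · exact hv
          · exact hu) ![M, L] ![w, z] ![l, k] (by
          intro j
          fin_cases j
          · exact hl
          · exact hk) (min (L * Real.log b) (M * Real.log c)) (by
          intro j
          fin_cases j
          · exact min_le_right _ _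
          · exact min_le_left _ _)
      rw [Fin.sum_univ_two, Fin.sum_univ_two] at h3
      rw [Fin.sum_univ_two, Fin.sum_univ_two] at h4
      simp only [Matrix.cons_val_zero, Matrix.cons_val_one] at h3 h4
      have hlb : 0 ≤ Real.log b := Real.log_natCast_nonneg _
      have hlc : 0 ≤ Real.log c := Real.log_natCast_nonneg _
      refine ⟨?_, fun hk0 hl0 => ?_⟩
      · refine h3.trans ?_
        have e1 : w + l + (z + k) = z + k + w + l := by omega
        rw [e1, add_comm (Real.log c)]
        have e2 : 2 * ((2 : ℕ) : ℝ) * (3 + η / 4) = 12 + η := by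
          push_cast
          ring
        rw [e2]
      · have h5 := h4 (by
          intro j
          fin_cases j
          · exact hl0
          · exact hk0)
        refine h5.trans ?_
        rw [add_comm w z, add_comm (Real.log c)]
        refine mul_le_mul_of_nonneg_left ?_ (by positivity)
        refine pow_le_pow_left₀ (by positivity) ?_ _
        push_cast
        linarith
    refine ⟨fun h3 h4 => ?_, fun k l hk hl => (key k l hk hl).1⟩
    exact (key 0 0 ⟨u, hu.1, by simp, h3⟩ ⟨v, hv.1, by simp, h4⟩).2 rfl rfl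
  · obtain ⟨c0, hc0, hm⟩ := DigitRecurrences.pair_meas Real.pi 0.02 (by norm_num)
    have hM := hm Real.pi (by rw [abs_of_pos Real.pi_pos])
    have hdig : ∀ b : ℕ, 2 ≤ b → ∀ j : Fin 2,
        Expansion 1 b (![digit b (Real.pi * Real.exp 1), digit b (Real.pi + Real.exp 1)] j)
          (![Real.pi * Real.exp 1, Real.pi + Real.exp 1] j) := by
      intro b hb j
      fin_cases j
      · exact digit_expansion hb _
      · exact digit_expansion hb _
    obtain ⟨L1, h1⟩ := largeE 2 (3 + 0.02) c0 (by norm_num) hc0 1 (Or.inl rfl) (by norm_num) 1 3.6 (by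
      have h2 : ((1 : ℕ) : ℝ) * ((2 : ℕ) : ℝ) * (3 + 0.02) = 6.04 := by norm_num
      rw [h2]
      have := log_604
      push_cast
      linarith)
    obtain ⟨L2, h2⟩ := largeE 2 (3 + 0.02) c0 (by norm_num) hc0 2 (Or.inr rfl) (by norm_num) 1 5 (by
      have h2 : ((2 : ℕ) : ℝ) * ((2 : ℕ) : ℝ) * (3 + 0.02) = 12.08 := by norm_num
      rw [h2]
      have := log_1208
      push_cast
      linarith)
    refine ⟨max L1 L2, fun b hb L hL => ⟨?_, ?_⟩⟩
    · obtain ⟨j, hj⟩ := h1 _ hM b hb _ (fun j => (hdig b hb j).1) (fun j => (hdig b hb j).2) L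
        ((le_max_left _ _).trans hL)
      have h3 : ∀ z, LZ (![digit b (Real.pi * Real.exp 1), digit b (Real.pi + Real.exp 1)] j) L z →
          Real.log L / 3.6 ≤ z := by
        intro z hz
        have h4 := hj _ (hdig b hb j).1 z ∅ (fun i _ _ => rfl) (fun _ => rfl) hz
        rw [Finset.card_empty, Nat.cast_zero, add_zero] at h4
        rw [div_le_iff₀ (by norm_num)]
        linarith
      fin_cases j
      · exact Or.inr h3
      · exact Or.inl h3
    · obtain ⟨j, hj⟩ := h2 _ hM b hb _ (fun j => (hdig b hb j).1) (fun j => (hdig b hb j).2) L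
        ((le_max_right _ _).trans hL)
      have h3 : ∀ z k, Cut b (![digit b (Real.pi * Real.exp 1),
          digit b (Real.pi + Real.exp 1)] j) L z k → Real.log L / 5 ≤ z + k := by
        rintro z k ⟨s, hs, hcard, hz⟩
        have h4 := hj s (fun i => by rw [pow_one]; exact hs i) z _ (fun i hi hn => by
          by_contra hne
          exact hn (Finset.mem_filter.2 ⟨Finset.mem_range.2 hi, hne⟩)) (fun h => by omega) hz
        have h5 : ((((range L).filter fun i => s i ≠ (![digit b (Real.pi * Real.exp 1),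
          digit b (Real.pi + Real.exp 1)] j) i).card : ℕ) : ℝ) ≤ k := by exact_mod_cast hcard
        rw [div_le_iff₀ (by norm_num)]
        linarith
      fin_cases j
      · exact Or.inr h3
      · exact Or.inl h3

end Pool.Agent.Results.MP_a49cf6_nt.LempelZivExpansions
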