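import Pool.Agent.K3h86.PT.Main

/-!
# The numbers `(n c) ^ (β g)`, and `n ^ x π ^ y e ^ v` with exponents in `ℚ̄(π, e)`

Three of the five numbers of the question are the members `n = 1`, `β = 1` of the families
`(n e) ^ (β e)`, `(n π) ^ (β e)` and `(n π) ^ (β π)`. Part (1): for all but `log₂ N + 1` of the integers
`n ≤ N` the numbers `(n e) ^ (β g)` are transcendental, for all algebraic `β ≠ 0` simultaneously, where
`g` is any transcendental number, for example `g = e`; and for all but `(log₂ N + 1) ^ 2` of them the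
numbers `(n c) ^ (β g)`, where `c > 0` is any number, for example `c = π`. Parts (2), (3): the same for
all numbers `n ^ x e ^ v w_1 ^ (y_1) ⋯ w_s ^ (y_s)`, where the `w_j` are any positive numbers
and the exponents `x`, `v`, `y_j` are polynomials or rational functions of bounded degree in any given
numbers `t_1, ..., t_r`, `x` not algebraic, up to a power of `log N`; for example for all numbers
`n ^ x π ^ y e ^ v` and `n ^ x π ^ y (π + e) ^ z e ^ v` with exponents of bounded degree in `ℚ̄(π, e)`.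

The starting file `MP_4c2ad3_nt.PowersTimesPowersOfPi` has the families `(n π) ^ (β π)` and
`n ^ x π ^ y`. The proof is a variant of the one given there: the relations
`P_i log n_i + T_i + S_i log π = Q_i λ_i` have a new term, with the coefficient `1`, which is itself a
linear form in logarithms (but not independent of the others); by Baker's theorem there is a
coordinate functional for `log n_i` which vanishes at `1`, so that the relations which vanish
identically can be described as before (`Pool.Agent.K3h86.PT.Core`). In Part (1) for `(n e) ^ (β g)`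
there are two cases: if `log n₀` is a combination of the `log n_i - log n₀` then `g` itself would be a
linear form in logarithms, and otherwise `log n₀` is one more independent logarithm.
-/

set_option autoImplicit false

namespace Pool.Agent.Results.MP_a49cf6_nt.PowersOfThreeBases

open Module Finset
open Pool.Agent.HP778 (count_of mem_of_exp natCast_cpow count_coset)
open Pool.Agent.K3h86.PT hiding IsQuotM

/-- The linear combinations, with algebraic coefficients, of `1` and of logarithms of algebraic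
numbers. -/
noncomputable def LogForms : Submodule (algebraicClosure ℚ ℂ) ℂ :=
  Submodule.span (algebraicClosure ℚ ℂ) ({1} ∪ {z : ℂ | IsAlgebraic ℚ (Complex.exp z)})

/-- The numbers `e ^ z` with `z` in `LogForms`, i.e. the numbers `e ^ γ α_1 ^ β_1 ⋯ α_k ^ β_k` with
algebraic `γ`, `α_i ≠ 0`, `β_i`. -/
def Prods : Set ℂ := {x | ∃ z ∈ LogForms, Complex.exp z = x}

open Classical in
/-- The integers `n` between `1` and `N` such that `(n c) ^ (β g)` is in `Prods` for SOME algebraic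
number `β ≠ 0`. -/
noncomputable def badBases (c g : ℝ) (N : ℕ) : Finset ℕ :=
  (Finset.Icc 1 N).filter fun n => ∃ β : ℂ, IsAlgebraic ℚ β ∧ β ≠ 0 ∧
    (((n * c : ℝ) : ℝ) : ℂ) ^ (β * g) ∈ Prods

open Classical in
/-- The integers `n` between `1` and `N` such that `n ^ x * e ^ v * ∏ w_j ^ (y_j)` is in `Prods` for
SOME `(x, v, y)` of the set `E`. -/
noncomputable def bad {s : ℕ} (w : Fin s → ℝ) (E : Set (ℂ × ℂ × (Fin s → ℂ))) (N : ℕ) : Finset ℕ :=
  (Finset.Icc 1 N).filter fun n => ∃ E₀ ∈ E,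
    (n : ℂ) ^ E₀.1 * Complex.exp E₀.2.1 * ∏ j, ((w j : ℝ) : ℂ) ^ (E₀.2.2 j) ∈ Prods

/-- the triples `(P(t), T(t), (S_j(t)))` of values of polynomials of degree at most `D` with
algebraic coefficients, `P` nonconstant -/
def polyExps (t : ℂ) (s D : ℕ) : Set (ℂ × ℂ × (Fin s → ℂ)) :=
  {E₀ | ∃ (P T : Polynomial (algebraicClosure ℚ ℂ)) (S : Fin s → Polynomial (algebraicClosure ℚ ℂ)),
    1 ≤ P.natDegree ∧ P.natDegree ≤ D ∧ T.natDegree ≤ D ∧ (∀ j, (S j).natDegree ≤ D) ∧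
    E₀ = (Polynomial.aeval t P, Polynomial.aeval t T, fun j => Polynomial.aeval t (S j))}

/-- the triples `(P(t) / Q(t), T(t) / Q(t), (S_j(t) / Q(t)))` with polynomials `P`, `Q`, `T`, `S_j`
with algebraic coefficients and of degree at most `D` in each of the `r` variables, such that
`P(t) / Q(t)` is transcendental -/
def ratExps {r : ℕ} (t : Fin r → ℂ) (s D : ℕ) : Set (ℂ × ℂ × (Fin s → ℂ)) :=
  {E₀ | Transcendental ℚ E₀.1 ∧ ∃ (P Q T : MvPolynomial (Fin r) (algebraicClosure ℚ ℂ))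
    (S : Fin s → MvPolynomial (Fin r) (algebraicClosure ℚ ℂ)),
    (∀ i, P.degreeOf i ≤ D) ∧ (∀ i, Q.degreeOf i ≤ D) ∧ (∀ i, T.degreeOf i ≤ D) ∧
    (∀ j i, (S j).degreeOf i ≤ D) ∧ MvPolynomial.aeval t Q ≠ 0 ∧
    E₀.1 = MvPolynomial.aeval t P / MvPolynomial.aeval t Q ∧
    E₀.2.1 = MvPolynomial.aeval t T / MvPolynomial.aeval t Q ∧
    ∀ j, E₀.2.2 j = MvPolynomial.aeval t (S j) / MvPolynomial.aeval t Q}

theorem ofReal_cpow' {a : ℝ} (ha : 0 < a) (x : ℂ) :
    (a : ℂ) ^ x = Complex.exp (x * ((Real.log a : ℝ) : ℂ)) := by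
  rw [Complex.cpow_def_of_ne_zero (by exact_mod_cast ha.ne'), Complex.ofReal_log ha.le, mul_comm]

theorem mem_of_exp' {s : ℕ} {w : Fin s → ℝ} (hw : ∀ j, 0 < w j) {u v : ℂ}
    {y : Fin s → ℂ}
    (h : Complex.exp u * Complex.exp v * ∏ j, ((w j : ℝ) : ℂ) ^ (y j) ∈ Prods) :
    u + v + ∑ j, y j * ((Real.log (w j) : ℝ) : ℂ) ∈ Pool.Agent.H301R2.SSE.Lt := by
  obtain ⟨z, hz, hze⟩ := h
  rw [Finset.prod_congr rfl fun j _ => ofReal_cpow' (hw j) (y j),
    ← Complex.exp_sum, ← Complex.exp_add, ← Complex.exp_add] at hze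
  exact mem_of_exp hz hze.symm

theorem mem_of_bad {s : ℕ} {w : Fin s → ℝ} (hw : ∀ j, 0 < w j) {n : ℕ} (hn : 1 ≤ n) {x v : ℂ}
    {y : Fin s → ℂ}
    (h : (n : ℂ) ^ x * Complex.exp v * ∏ j, ((w j : ℝ) : ℂ) ^ (y j) ∈ Prods) :
    x * ((Real.log n : ℝ) : ℂ) + v + ∑ j, y j * ((Real.log (w j) : ℝ) : ℂ) ∈
      Pool.Agent.H301R2.SSE.Lt := by
  rw [natCast_cpow hn] at h
  exact mem_of_exp' hw h

theorem bad_le {s : ℕ} {w : Fin s → ℝ} (hw : ∀ j, 0 < w j) {E : Set (ℂ × ℂ × (Fin s → ℂ))}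
    {N r : ℕ}
    (h : ∀ (m : ℕ) (l : Fin m → ℂ), (∀ i, IsAlgebraic ℚ (Complex.exp (l i))) →
      LinearIndependent ℚ l → (∀ i, ∃ E₀ ∈ E,
        E₀.1 * l i + E₀.2.1 + ∑ j, E₀.2.2 j * ((Real.log (w j) : ℝ) : ℂ) ∈
          Pool.Agent.H301R2.SSE.Lt) → m ≤ r) :
    (bad w E N).card ≤ (Nat.log 2 N + 1) ^ r := by
  classical
  have h1 := count_of (N := N) (r := r)
    (fun n => ∃ E₀ ∈ E,
      (n : ℂ) ^ E₀.1 * Complex.exp E₀.2.1 * ∏ j, ((w j : ℝ) : ℂ) ^ (E₀.2.2 j) ∈ Prods) (by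
    intro m n hn halg hli
    refine h m _ halg hli fun i => ?_
    obtain ⟨x, hx, hxp⟩ := (hn i).2
    exact ⟨x, hx, mem_of_bad hw (hn i).1 hxp⟩)
  refine le_trans (le_of_eq ?_) h1
  unfold bad
  congr

/-- the numbers `n` of `badBases` -/
theorem base_mem {c g : ℝ} (hc : 0 < c) {n : ℕ} (hn1 : 1 ≤ n)
    (h : ∃ β : ℂ, IsAlgebraic ℚ β ∧ β ≠ 0 ∧ (((n * c : ℝ) : ℝ) : ℂ) ^ (β * g) ∈ Prods) :
    (g : ℂ) * ((Real.log n : ℝ) : ℂ) + (g : ℂ) * ((Real.log c : ℝ) : ℂ) ∈
      Pool.Agent.H301R2.SSE.Lt := by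
  obtain ⟨β, hβ, hβ0, z, hz, hze⟩ := h
  have hnpos : (0 : ℝ) < n := by exact_mod_cast hn1
  rw [ofReal_cpow' (mul_pos hnpos hc)] at hze
  have h1 := mem_of_exp hz hze.symm
  have h2 := Pool.Agent.H301R2.SSE.Lt_mul hβ.inv h1
  have h3 : (g : ℂ) * ((Real.log n : ℝ) : ℂ) + (g : ℂ) * ((Real.log c : ℝ) : ℂ) =
      β⁻¹ * (β * g * ((Real.log (n * c) : ℝ) : ℂ)) := by
    rw [Real.log_mul hnpos.ne' hc.ne']
    push_cast
    field_simp
  rw [h3]
  exact h2

/-- **Main result.** Let `D ≥ 1`.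

(1) Let `g` be a transcendental real number (such as `e` or `π`). For all but at most `log₂ N + 1` of
the integers `n` between `1` and `N` the numbers `(n e) ^ (β g)` are not in `Prods` (in particular
transcendental), for all algebraic `β ≠ 0`. For all `c > 0` (such as `c = π`) the same is true for
`(n c) ^ (β g)`, with at most `(log₂ N + 1) ^ 2` exceptions.

(2) Let `t` be a transcendental number and `w_1, ..., w_s > 0`. For all but at most
`(log₂ N + 1) ^ (4 D + 2 s - 2)` of the `n` all the numbers `n ^ P(t) e ^ T(t) ∏ w_j ^ (S_j(t))`, with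
polynomials `P`, `T`, `S_j` of degree at most `D` with algebraic coefficients, `P` nonconstant, are
not in `Prods`.

(3) Let `t_1, ..., t_r` be any numbers. The same for all numbers `n ^ x e ^ v ∏ w_j ^ (y_j)`,
`x = P(t) / Q(t)` transcendental, `v = T(t) / Q(t)`, `y_j = S_j(t) / Q(t)`, with polynomials of degree
at most `D` in each variable, and at most `(log₂ N + 1) ^ (2 ^ (r+1) ((2 D) ^ r + s - 1))` exceptions.
More generally, if such a number with an algebraic number `e ^ (l_i)` instead of `n` is in `Prods` for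
`i = 1, ..., m`, and the logarithms `l_i` are linearly independent over the rational numbers, then
`m ≤ 2 ^ (r+1) ((2 D) ^ r + s - 1)`.

(4) In particular for the numbers `n ^ x e ^ v π ^ y` with rational functions in `π` and `e`, with at
most `(log₂ N + 1) ^ (32 D ^ 2)` exceptions, and for `n ^ x e ^ v π ^ y (π + e) ^ z`, with at most
`(log₂ N + 1) ^ (32 D ^ 2 + 8)` exceptions.

(5) All nonzero algebraic numbers are in `Prods`. -/
theorem result :
    (∀ g : ℝ, Transcendental ℚ g → ∀ N : ℕ,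
      (badBases (Real.exp 1) g N).card ≤ Nat.log 2 N + 1 ∧
      ∀ c : ℝ, 0 < c → (badBases c g N).card ≤ (Nat.log 2 N + 1) ^ 2) ∧
    (∀ t : ℂ, Transcendental ℚ t → ∀ (s : ℕ) (w : Fin s → ℝ), (∀ j, 0 < w j) → ∀ D N : ℕ, 1 ≤ D →
      (bad w (polyExps t s D) N).card ≤ (Nat.log 2 N + 1) ^ (4 * D + 2 * s - 2)) ∧
    (∀ (r s : ℕ) (t : Fin r → ℂ) (w : Fin s → ℝ), (∀ j, 0 < w j) → ∀ D : ℕ, 1 ≤ D →
      (∀ N : ℕ, (bad w (ratExps t s D) N).card ≤
        (Nat.log 2 N + 1) ^ (2 ^ (r + 1) * ((2 * D) ^ r + s - 1))) ∧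
      ∀ (m : ℕ) (l : Fin m → ℂ), (∀ i, IsAlgebraic ℚ (Complex.exp (l i))) →
        LinearIndependent ℚ l → (∀ i, ∃ E₀ ∈ ratExps t s D,
          Complex.exp (E₀.1 * l i) * Complex.exp E₀.2.1 *
            ∏ j, ((w j : ℝ) : ℂ) ^ (E₀.2.2 j) ∈ Prods) →
        m ≤ 2 ^ (r + 1) * ((2 * D) ^ r + s - 1)) ∧
    (∀ D N : ℕ, 1 ≤ D →
      (bad ![Real.pi] (ratExps ![((Real.pi : ℝ) : ℂ), ((Real.exp 1 : ℝ) : ℂ)] 1 D) N).card ≤
        (Nat.log 2 N + 1) ^ (32 * D ^ 2) ∧
      (bad ![Real.pi, Real.pi + Real.exp 1]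
        (ratExps ![((Real.pi : ℝ) : ℂ), ((Real.exp 1 : ℝ) : ℂ)] 2 D) N).card ≤
        (Nat.log 2 N + 1) ^ (32 * D ^ 2 + 8)) ∧
    (∀ x : ℂ, x ≠ 0 → IsAlgebraic ℚ x → x ∈ Prods) := by
  classical
  have h3 : ∀ (r s : ℕ) (t : Fin r → ℂ) (w : Fin s → ℝ), (∀ j, 0 < w j) → ∀ D N : ℕ, 1 ≤ D →
      (bad w (ratExps t s D) N).card ≤
        (Nat.log 2 N + 1) ^ (2 ^ (r + 1) * ((2 * D) ^ r + s - 1)) := by
    intro r s t w hw D N hD
    refine bad_le hw fun m l halg hli h => ?_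
    refine logs_multi t (fun j => ((Real.log (w j) : ℝ) : ℂ)) hD l halg hli fun i => ?_
    obtain ⟨E₀, ⟨hx, P, Q, T, S, hP, hQ, hT, hS, hQ0, h1, h2, h3⟩, hxl⟩ := h i
    exact ⟨E₀.1, E₀.2.1, E₀.2.2, ⟨P, Q, T, S, hP, hQ, hT, hS, hQ0, h1, h2, h3⟩, hx, hxl⟩
  refine ⟨fun g hg N => ⟨?_, fun c hc => ?_⟩, fun t ht s w hw D N hD => ?_,
    fun r s t w hw D hD => ⟨fun N => h3 r s t w hw D N hD, fun m l halg hli h => ?_⟩,
    fun D N hD => ⟨?_, ?_⟩, fun x hx0 hx => ?_⟩
  · refine le_trans (Finset.card_le_card ?_)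
      (count_add (Pool.Agent.HP778.ofReal_transcendental hg) N)
    intro n hn
    unfold badBases at hn
    rw [Finset.mem_filter] at hn ⊢
    have h1 := base_mem (Real.exp_pos 1) (Finset.mem_Icc.mp hn.1).1 hn.2
    rw [Real.log_exp, Complex.ofReal_one, mul_one] at h1
    exact ⟨hn.1, h1⟩
  · refine le_trans (Finset.card_le_card ?_)
      (count_coset (Pool.Agent.HP778.ofReal_transcendental hg)
        ((g : ℂ) * ((Real.log c : ℝ) : ℂ)) N).1
    intro n hn
    unfold badBases at hn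
    rw [Finset.mem_filter] at hn ⊢
    exact ⟨hn.1, base_mem hc (Finset.mem_Icc.mp hn.1).1 hn.2⟩
  · refine bad_le hw fun m l halg hli h => ?_
    refine logs_polyz1 ht (fun j => ((Real.log (w j) : ℝ) : ℂ)) hD l halg hli fun i => ?_
    obtain ⟨E₀, ⟨P, T, S, h1, h2, h3, h4, rfl⟩, hx⟩ := h i
    exact ⟨P, T, S, h1, h2, h3, h4, hx⟩
  · refine logs_multi t (fun j => ((Real.log (w j) : ℝ) : ℂ)) hD l halg hli fun i => ?_
    obtain ⟨E₀, ⟨hx, P, Q, T, S, hP, hQ, hT, hS, hQ0, h1, h2, h3⟩, hxl⟩ := h i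
    exact ⟨E₀.1, E₀.2.1, E₀.2.2, ⟨P, Q, T, S, hP, hQ, hT, hS, hQ0, h1, h2, h3⟩, hx,
      mem_of_exp' hw hxl⟩
  · have h := h3 2 1 ![((Real.pi : ℝ) : ℂ), ((Real.exp 1 : ℝ) : ℂ)] ![Real.pi]
      (by intro j; fin_cases j; exact Real.pi_pos) D N hD
    have e : 2 ^ (2 + 1) * ((2 * D) ^ 2 + 1 - 1) = 32 * D ^ 2 := by
      rw [Nat.add_sub_cancel]; ring
    rwa [e] at h
  · have h := h3 2 2 ![((Real.pi : ℝ) : ℂ), ((Real.exp 1 : ℝ) : ℂ)]
      ![Real.pi, Real.pi + Real.exp 1]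
      (by
        intro j
        have := Real.pi_pos
        have := Real.exp_pos 1
        fin_cases j
        · exact Real.pi_pos
        · simp only [Fin.mk_one, Matrix.cons_val_one, Matrix.cons_val_fin_one]
          positivity) D N hD
    have e : 2 ^ (2 + 1) * ((2 * D) ^ 2 + 2 - 1) = 32 * D ^ 2 + 8 := by
      have : (2 * D) ^ 2 + 2 - 1 = (2 * D) ^ 2 + 1 := by omega
      rw [this]; ring
    rwa [e] at h
  · refine ⟨Complex.log x, ?_, Complex.exp_log hx0⟩
    refine Submodule.subset_span (Or.inr ?_)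
    change IsAlgebraic ℚ (Complex.exp (Complex.log x))
    rwa [Complex.exp_log hx0]

end Pool.Agent.Results.MP_a49cf6_nt.PowersOfThreeBases
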