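import Mathlib
import Pool.Agent.K3lead.A49.Multi

set_option autoImplicit false

/-!
# Linear recurrences for the digits of `π + e` in one base and of `π e` in another base

The linear complexity `N_b(y; L)` of the first `L` digits of `y` in base `b` is the least order of a
linear recurrence over `ℚ` satisfied by these digits. It is bounded for `L → ∞` if and only if `y` is
rational, and about `L / 2` for random digits.

(1) Let `c_0 ≠ 0, c_1, …, c_n` be integers, `T` real and `η > 0`. There is `C` such that for all real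
numbers `y_1, …, y_n` of absolute value at most `T` with
`c_0 e ^ n = c_1 y_1 + c_2 y_2 e + … + c_n y_n e ^ (n - 1)`, all bases `b_1, …, b_n` and all lengths
`L_1, …, L_n` the smallest one of the numbers `L_j log b_j` is at most
`(n + 1 + η) (N_1 log b_1 + … + N_n log b_n) + C (log b_1 + … + log b_n)`, where `N_j` is the linear
complexity of the first `L_j` digits of `y_j` in base `b_j`.

(2) For all `T` and `η > 0` there is `C` such that for all real `t` with `|t| ≤ T`, all bases `b`, `b'`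
and all lengths `L`, `L'`: `min (L log b, L' log b')` is at most
`(3 + η) (N_b(t + e; L) log b + N_b'(t e; L') log b') + C (log b + log b')`.

(3) For `ε > 0` there is `C` with `N_b(π + e; L) log b + N_b'(π e; L') log b' ≥
(1 / 3 - ε) min (L log b, L' log b') - C (log b + log b')` for all bases `b`, `b'` and all `L`, `L'`.

(4) For `ε > 0` there is `C` such that for every scale `X` one of the two numbers `y = π + e`,
`y = π e` satisfies `N_b(y; L) log b ≥ (1 / 6 - ε) X - C log b` for all bases `b` and all `L` with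
`L log b ≥ X`.
-/

namespace Pool.Agent.Results.MP_a49cf6_nt.RecurrencesInTwoBases

open Finset

/-- the `i`-th digit of `x` after the point in base `b` -/
noncomputable def digit (b : ℕ) (x : ℝ) (i : ℕ) : ℤ := ⌊x * (b : ℝ) ^ i⌋ % (b : ℤ)

/-- The terms `s_1, …, s_L` satisfy the linear recurrence
`s_(i+m) = c_0 s_i + … + c_(m-1) s_(i+m-1)` for `1 ≤ i ≤ L - m`. -/
def Recurrence (s : ℕ → ℤ) (c : ℕ → ℚ) (L m : ℕ) : Prop :=
  ∀ i : ℕ, 1 ≤ i → i + m ≤ L → (s (i + m) : ℚ) = ∑ j ∈ range m, c j * (s (i + j) : ℚ)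

/-- the linear complexity of the first `L` digits of `x` in base `b` -/
noncomputable def complexity (b : ℕ) (x : ℝ) (L : ℕ) : ℕ :=
  sInf {m | ∃ c : ℕ → ℚ, Recurrence (digit b x) c L m}

/-- `N_b(y; L) log b < (1 / 6 - ε) X - C log b` for some base `b` and some `L` with `L log b ≥ X` -/
def Bad (C ε X y : ℝ) : Prop :=
  ∃ b L : ℕ, 2 ≤ b ∧ X ≤ L * Real.log b ∧
    complexity b y L * Real.log b < (1 / 6 - ε) * X - C * Real.log b

lemma recurrence (b : ℕ) (x : ℝ) (L : ℕ) :
    ∃ c : ℕ → ℚ, Recurrence (digit b x) c L (complexity b x L) := by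
  have h : L ∈ {m | ∃ c : ℕ → ℚ, Recurrence (digit b x) c L m} := by
    refine ⟨fun _ => 0, fun i h1 h2 => ?_⟩
    omega
  exact Nat.sInf_mem ⟨L, h⟩

theorem log_ge (b : ℕ) (hb : 2 ≤ b) : 0.69 ≤ Real.log b := by
  have hbR : (2 : ℝ) ≤ b := by exact_mod_cast hb
  have h1 := Real.log_two_gt_d9
  have h2 := Real.log_le_log (by norm_num : (0 : ℝ) < 2) hbR
  linarith

/-- the general inequality for the complexities -/
theorem gen (μ c0 η : ℝ) (hμ : 1 < μ) (hc0 : 0 < c0) (hη : 0 < η) : ∃ C : ℝ, 0 ≤ C ∧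
    ∀ (J : ℕ) (x : Fin J → ℝ), Pool.Agent.W47.JL.Meas J x μ c0 0 → ∀ b L : Fin J → ℕ,
      (∀ j, 2 ≤ b j) → ∃ j, (L j : ℝ) * Real.log (b j) ≤
        (μ + η) * (∑ i, complexity (b i) (x i) (L i) * Real.log (b i)) +
          C * ∑ i, Real.log (b i) := by
  obtain ⟨C, hC0, hC⟩ := Pool.Agent.K3lead.A49.Multi.multi μ c0 η hμ hc0 hη
  refine ⟨C, hC0, fun J x hx b L hb => ?_⟩
  choose c hc using fun j => recurrence (b j) (x j) (L j)
  refine hC J x hx b L (fun j => complexity (b j) (x j) (L j)) c hb ?_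
  intro j i hi
  have h := hc j (i + 1) (by omega) (by omega)
  have e1 : ∀ l, i + 1 + l = i + l + 1 := fun l => by ring
  simp only [e1] at h
  exact h

/-- **Linear recurrences for the digits of `π + e` and `π e`.** See the text at the beginning of the
file. -/
theorem result :
    (∀ (n : ℕ) (c : Fin (n + 1) → ℤ), c 0 ≠ 0 → ∀ T η : ℝ, 0 < η → ∃ C : ℝ,
      ∀ y : Fin n → ℝ, (∀ j, |y j| ≤ T) →
      (c 0 : ℝ) * Real.exp 1 ^ n = ∑ j : Fin n, (c j.succ : ℝ) * y j * Real.exp 1 ^ (j : ℕ) →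
      ∀ b L : Fin n → ℕ, (∀ j, 2 ≤ b j) → ∃ j, (L j : ℝ) * Real.log (b j) ≤
        ((n : ℝ) + 1 + η) * (∑ i, complexity (b i) (y i) (L i) * Real.log (b i)) +
          C * ∑ i, Real.log (b i)) ∧
    (∀ T η : ℝ, 0 < η → ∃ C : ℝ, ∀ t : ℝ, |t| ≤ T → ∀ b b' L L' : ℕ, 2 ≤ b → 2 ≤ b' →
      min (L * Real.log b) (L' * Real.log b') ≤
        (3 + η) * (complexity b (t + Real.exp 1) L * Real.log b +
          complexity b' (t * Real.exp 1) L' * Real.log b') + C * (Real.log b + Real.log b')) ∧
    (∀ ε : ℝ, 0 < ε → ∃ C : ℝ, ∀ b b' L L' : ℕ, 2 ≤ b → 2 ≤ b' →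
      (1 / 3 - ε) * min (L * Real.log b) (L' * Real.log b') - C * (Real.log b + Real.log b') ≤
        complexity b (Real.pi + Real.exp 1) L * Real.log b +
          complexity b' (Real.pi * Real.exp 1) L' * Real.log b') ∧
    (∀ ε : ℝ, 0 < ε → ∃ C : ℝ, ∀ X : ℝ, 0 ≤ X →
      ¬ Bad C ε X (Real.pi + Real.exp 1) ∨ ¬ Bad C ε X (Real.pi * Real.exp 1)) := by
  have h2 : ∀ T η : ℝ, 0 < η → ∃ C : ℝ, 0 ≤ C ∧ ∀ t : ℝ, |t| ≤ T → ∀ b b' L L' : ℕ, 2 ≤ b →
      2 ≤ b' → min (L * Real.log b) (L' * Real.log b') ≤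
        (3 + η) * (complexity b (t + Real.exp 1) L * Real.log b +
          complexity b' (t * Real.exp 1) L' * Real.log b') +
            C * (Real.log b + Real.log b') := by
    intro T η hη
    obtain ⟨c0, hc0, hm⟩ := Pool.Agent.K3lead.A49.Multi.pair_meas T (η / 2) (by linarith)
    obtain ⟨C, hC0, hC⟩ := gen (3 + η / 2) c0 (η / 2) (by linarith) hc0 (by linarith)
    refine ⟨C, hC0, fun t ht b b' L L' hb hb' => ?_⟩
    obtain ⟨j, hj⟩ := hC 2 _ (hm t ht) ![b', b] ![L', L] (by
      intro j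
      fin_cases j
      · exact hb'
      · exact hb)
    simp only [Fin.sum_univ_two, Matrix.cons_val_zero, Matrix.cons_val_one] at hj
    have e : 3 + η / 2 + η / 2 = 3 + η := by ring
    rw [e, add_comm (complexity b' (t * Real.exp 1) L' * Real.log b'),
      add_comm (Real.log b')] at hj
    fin_cases j
    · exact (min_le_right _ _).trans hj
    · exact (min_le_left _ _).trans hj
  have h3 : ∀ ε : ℝ, 0 < ε → ∃ C : ℝ, 0 ≤ C ∧ ∀ b b' L L' : ℕ, 2 ≤ b → 2 ≤ b' →
      (1 / 3 - ε) * min (L * Real.log b) (L' * Real.log b') - C * (Real.log b + Real.log b') ≤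
        complexity b (Real.pi + Real.exp 1) L * Real.log b +
          complexity b' (Real.pi * Real.exp 1) L' * Real.log b' := by
    intro ε hε
    obtain ⟨C, hC0, hC⟩ := h2 Real.pi (3 * ε) (by linarith)
    refine ⟨C, hC0, fun b b' L L' hb hb' => ?_⟩
    have h := hC Real.pi (by rw [abs_of_pos Real.pi_pos]) b b' L L' hb hb'
    have hl := log_ge b hb
    have hl' := log_ge b' hb'
    have hN : 0 ≤ (complexity b (Real.pi + Real.exp 1) L : ℝ) * Real.log b := by positivity
    have hN' : 0 ≤ (complexity b' (Real.pi * Real.exp 1) L' : ℝ) * Real.log b' := by positivity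
    have hX : 0 ≤ min ((L : ℝ) * Real.log b) (L' * Real.log b') :=
      le_min (by positivity) (by positivity)
    generalize (complexity b (Real.pi + Real.exp 1) L : ℝ) * Real.log b = u at *
    generalize (complexity b' (Real.pi * Real.exp 1) L' : ℝ) * Real.log b' = u' at *
    generalize min ((L : ℝ) * Real.log b) (L' * Real.log b') = X at *
    have hs : 0 ≤ C * (Real.log b + Real.log b') := by positivity
    generalize C * (Real.log b + Real.log b') = s at *
    by_contra hcon
    push Not at hcon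
    have h4 : (3 + 3 * ε) * (u + u') ≤ (3 + 3 * ε) * ((1 / 3 - ε) * X - s) :=
      mul_le_mul_of_nonneg_left hcon.le (by linarith)
    have h5 : (3 + 3 * ε) * ((1 / 3 - ε) * X - s) = X - 2 * ε * X - 3 * ε ^ 2 * X - 3 * s -
      3 * ε * s := by ring
    rw [h5] at h4
    have h6 : 0 ≤ 2 * ε * X := by positivity
    have h7 : 0 ≤ 3 * ε ^ 2 * X := by positivity
    have h8 : 0 ≤ 3 * ε * s := by positivity
    have h9 : s ≤ 0 := by linarith
    have h10 : s = 0 := le_antisymm h9 hs
    rw [h10] at h4 h hcon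
    have h11 : 0 ≤ ε * X := by positivity
    have h12 : ε * X ≤ 0 := by nlinarith
    have h13 : X = 0 := by
      rcases eq_or_lt_of_le hX with h14 | h14
      · exact h14.symm
      · exfalso
        have := mul_pos hε h14
        linarith
    rw [h13] at hcon
    linarith
  refine ⟨fun n c hc T η hη => ?_, fun T η hη => ?_, fun ε hε => ?_, fun ε hε => ?_⟩
  · obtain ⟨c0, hc0, hm⟩ := Pool.Agent.K3lead.A49.Multi.meas n c hc T (η / 2) (by linarith)
    obtain ⟨C, hC0, hC⟩ := gen ((n : ℝ) + 1 + η / 2) c0 (η / 2) (by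
      have : (0 : ℝ) ≤ n := Nat.cast_nonneg n
      linarith) hc0 (by linarith)
    refine ⟨C, fun y hy hrel b L hb => ?_⟩
    have h := hC n y (hm y hy hrel) b L hb
    have e : (n : ℝ) + 1 + η / 2 + η / 2 = n + 1 + η := by ring
    rwa [e] at h
  · obtain ⟨C, -, hC⟩ := h2 T η hη
    exact ⟨C, hC⟩
  · obtain ⟨C, -, hC⟩ := h3 ε hε
    exact ⟨C, hC⟩
  · obtain ⟨C, hC0, hC⟩ := h3 ε hε
    refine ⟨C, fun X hX0 => ?_⟩
    by_contra hcon
    push Not at hcon
    obtain ⟨⟨b, L, hb, hX, h4⟩, ⟨b', L', hb', hX', h5⟩⟩ := hcon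
    have h6 := hC b b' L L' hb hb'
    have h7 : X ≤ min (L * Real.log b) (L' * Real.log b') := le_min hX hX'
    rcases le_or_gt (1 / 3) ε with h8 | h8
    · have hl := log_ge b hb
      have hN : 0 ≤ (complexity b (Real.pi + Real.exp 1) L : ℝ) * Real.log b := by positivity
      have h9 : 0 ≤ C * Real.log b := by positivity
      have h10 : (1 / 6 - ε) * X ≤ 0 :=
        mul_nonpos_of_nonpos_of_nonneg (by linarith) hX0
      linarith
    · have h9 : (1 / 3 - ε) * X ≤ (1 / 3 - ε) * min (L * Real.log b) (L' * Real.log b') :=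
        mul_le_mul_of_nonneg_left h7 (by linarith)
      have h10 : 0 ≤ ε * X := by positivity
      nlinarith

end Pool.Agent.Results.MP_a49cf6_nt.RecurrencesInTwoBases
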